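import Mathlib
import Pool.Agent.H41.AL.Defs

/-!
# AL-STEPQ: one step, products of two rows
-/

set_option autoImplicit false

namespace Pool.Agent.H400.AL

open Equiv Pool.Agent.H41.AL

open Classical in
/-- the factor of an entry -/
noncomputable def ff {n L : ℕ} (M : Fin L → Perm (Fin n)) (k : Fin L) (g : Perm (Fin n))
    (j c : Fin n) : ℝ :=
  if M k j = g c then 0 else if ∃ k', M k' j = g c then ((L : ℝ) / (L - 1)) else 1

open Classical in
/-- indicator of the columns which are used -/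
noncomputable def ee {n L : ℕ} (M : Fin L → Perm (Fin n)) (g : Perm (Fin n)) (j c : Fin n) : ℝ :=
  if ∃ k', M k' j = g c then 1 else 0

/-- indicator of the killed column -/
noncomputable def dd {n L : ℕ} (M : Fin L → Perm (Fin n)) (k : Fin L) (g : Perm (Fin n))
    (j c : Fin n) : ℝ :=
  if M k j = g c then 1 else 0

theorem upd_eq {n L : ℕ} (M : Fin L → Perm (Fin n)) (k : Fin L) (g : Perm (Fin n)) (W : Mx n)
    (j c : Fin n) : upd M k g W j c = W j c * ff M k g j c := by
  unfold upd ff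
  split_ifs <;> simp

theorem ff_none {n L : ℕ} (M : Fin L → Perm (Fin n)) (k : Fin L) (g : Perm (Fin n)) (j c : Fin n)
    (h : ¬ ∃ k', M k' j = g c) : ff M k g j c = 1 := by
  unfold ff
  rw [if_neg (fun h1 => h ⟨k, h1⟩), if_neg h]

theorem ff_some {n L : ℕ} (M : Fin L → Perm (Fin n)) (hM : Disj M) (k k1 : Fin L)
    (g : Perm (Fin n)) (j c : Fin n) (h : M k1 j = g c) :
    ff M k g j c = if k = k1 then 0 else ((L : ℝ) / (L - 1)) := by
  unfold ff
  by_cases hk : k = k1
  · rw [if_pos hk, if_pos (by rw [hk]; exact h)]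
  · rw [if_neg hk, if_neg (fun h1 => hM k k1 hk j (h1.trans h.symm)), if_pos ⟨k1, h⟩]

/-- numbers -/
theorem nums {L : ℕ} (hL : 3 ≤ L) : ∃ r : ℝ, r = (L : ℝ) / (L - 1) ∧ (L : ℝ) * r - r = L ∧
    1 ≤ r ∧ r ≤ 3 / 2 ∧ (L : ℝ) * (r - 1) = r ∧ (L : ℝ) * r ^ 2 - r ^ 2 - r ^ 2 ≤ L := by
  have hx : (3 : ℝ) ≤ L := by exact_mod_cast hL
  have h1 : (0 : ℝ) < (L : ℝ) - 1 := by linarith
  refine ⟨_, rfl, ?_, ?_, ?_, ?_, ?_⟩
  · field_simp
  · rw [le_div_iff₀ h1]
    linarith
  · rw [div_le_iff₀ h1]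
    linarith
  · field_simp
    ring
  · have h2 : (L : ℝ) * ((L : ℝ) / (L - 1)) ^ 2 - ((L : ℝ) / (L - 1)) ^ 2 -
        ((L : ℝ) / (L - 1)) ^ 2 = (L : ℝ) ^ 2 * (L - 2) / (L - 1) ^ 2 := by
      field_simp
      ring
    rw [h2, div_le_iff₀ (pow_pos h1 2)]
    nlinarith

/-- the sum of the factors -/
theorem sum_ff {n L : ℕ} (M : Fin L → Perm (Fin n)) (hM : Disj M) (hL : 3 ≤ L)
    (g : Perm (Fin n)) (j j' c : Fin n) (hj : j ≠ j') :
    ∑ k, ff M k g j c * ff M k g j' c ≤ L := by
  obtain ⟨r, hr, e1, -, -, -, e2⟩ := nums hL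
  have s1 : ∀ (k1 : Fin L) (a : ℝ), ∑ k : Fin L, (if k = k1 then a else 0) = a := by
    intro k1 a
    rw [Finset.sum_ite_eq', if_pos (Finset.mem_univ _)]
  have s0 : ∀ a : ℝ, ∑ _k : Fin L, a = L * a := by
    intro a
    rw [Finset.sum_const, Finset.card_univ, Fintype.card_fin, nsmul_eq_mul]
  by_cases h : ∃ k', M k' j = g c
  · obtain ⟨k1, h1⟩ := h
    by_cases h' : ∃ k', M k' j' = g c
    · obtain ⟨k2, h2⟩ := h'
      have hne : k1 ≠ k2 := by
        intro h3
        rw [h3] at h1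
        exact hj ((M k2).injective (h1.trans h2.symm))
      have e3 : ∀ k : Fin L, ff M k g j c * ff M k g j' c =
          r ^ 2 - (if k = k1 then r ^ 2 else 0) - (if k = k2 then r ^ 2 else 0) := by
        intro k
        rw [ff_some M hM k k1 g j c h1, ff_some M hM k k2 g j' c h2, ← hr]
        by_cases hk1 : k = k1
        · rw [if_pos hk1, if_pos hk1, if_neg (fun h => hne (hk1.symm.trans h)),
            if_neg (fun h => hne (hk1.symm.trans h))]
          ring
        · rw [if_neg hk1, if_neg hk1]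
          by_cases hk2 : k = k2
          · rw [if_pos hk2, if_pos hk2]
            ring
          · rw [if_neg hk2, if_neg hk2]
            ring
      rw [Finset.sum_congr rfl fun k _ => e3 k, Finset.sum_sub_distrib, Finset.sum_sub_distrib,
        s1, s1, s0]
      exact e2
    · have e3 : ∀ k : Fin L, ff M k g j c * ff M k g j' c = r - (if k = k1 then r else 0) := by
        intro k
        rw [ff_some M hM k k1 g j c h1, ff_none M k g j' c h', ← hr]
        split_ifs <;> ring
      rw [Finset.sum_congr rfl fun k _ => e3 k, Finset.sum_sub_distrib, s1, s0]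
      exact e1.le
  · by_cases h' : ∃ k', M k' j' = g c
    · obtain ⟨k2, h2⟩ := h'
      have e3 : ∀ k : Fin L, ff M k g j c * ff M k g j' c = r - (if k = k2 then r else 0) := by
        intro k
        rw [ff_some M hM k k2 g j' c h2, ff_none M k g j c h, ← hr]
        split_ifs <;> ring
      rw [Finset.sum_congr rfl fun k _ => e3 k, Finset.sum_sub_distrib, s1, s0]
      exact e1.le
    · have e3 : ∀ k : Fin L, ff M k g j c * ff M k g j' c = 1 := by
        intro k
        rw [ff_none M k g j c h, ff_none M k g j' c h', mul_one]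
      rw [Finset.sum_congr rfl fun k _ => e3 k, s0, mul_one]

theorem ee_sum {n L : ℕ} (M : Fin L → Perm (Fin n)) (g : Perm (Fin n)) (j : Fin n) :
    ∑ c, ee M g j c ≤ L := by
  classical
  unfold ee
  rw [Finset.sum_ite, Finset.sum_const_zero, add_zero, Finset.sum_const, nsmul_eq_mul, mul_one]
  have h : (Finset.univ.filter fun c => ∃ k', M k' j = g c) ⊆
      Finset.univ.image fun k : Fin L => g.symm (M k j) := by
    intro c hc
    obtain ⟨k, hk⟩ := (Finset.mem_filter.1 hc).2
    exact Finset.mem_image.2 ⟨k, Finset.mem_univ _, by rw [hk, Equiv.symm_apply_apply]⟩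
  have h2 := (Finset.card_le_card h).trans Finset.card_image_le
  rw [Finset.card_univ, Fintype.card_fin] at h2
  exact_mod_cast h2

theorem dd_sum {n L : ℕ} (M : Fin L → Perm (Fin n)) (k : Fin L) (g : Perm (Fin n)) (j : Fin n) :
    ∑ c, dd M k g j c = 1 := by
  unfold dd
  have h : ∀ c, (if M k j = g c then (1 : ℝ) else 0) = if c = g.symm (M k j) then 1 else 0 := by
    intro c
    have h1 : M k j = g c ↔ c = g.symm (M k j) := by
      rw [Equiv.eq_symm_apply]
      exact eq_comm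
    by_cases h2 : M k j = g c
    · rw [if_pos h2, if_pos (h1.1 h2)]
    · rw [if_neg h2, if_neg (fun h3 => h2 (h1.2 h3))]
  rw [Finset.sum_congr rfl fun c _ => h c, Finset.sum_ite_eq', if_pos (Finset.mem_univ _)]

theorem ff_bd {n L : ℕ} (hL : 3 ≤ L) (M : Fin L → Perm (Fin n)) (k : Fin L) (g : Perm (Fin n))
    (j c : Fin n) (r : ℝ) (hr : r = (L : ℝ) / (L - 1)) (hr1 : 1 ≤ r) :
    0 ≤ ff M k g j c ∧ ff M k g j c ≤ 1 + (r - 1) * ee M g j c ∧
      (dd M k g j c = 0 → 1 ≤ ff M k g j c) ∧ (dd M k g j c = 1 → ff M k g j c = 0) ∧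
      (dd M k g j c = 0 ∨ dd M k g j c = 1) ∧ 0 ≤ ee M g j c ∧ ee M g j c ≤ 1 := by
  unfold ff ee dd
  rw [← hr]
  by_cases h1 : M k j = g c
  · have h2 : ∃ k', M k' j = g c := ⟨k, h1⟩
    rw [if_pos h1, if_pos h1, if_pos h2]
    refine ⟨le_rfl, by linarith, fun h => by norm_num at h, fun _ => rfl, Or.inr rfl, by norm_num,
      le_rfl⟩
  · rw [if_neg h1, if_neg h1]
    by_cases h2 : ∃ k', M k' j = g c
    · rw [if_pos h2, if_pos h2]
      exact ⟨by linarith, by linarith, fun _ => hr1, fun h => by norm_num at h, Or.inl rfl,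
        by norm_num, le_rfl⟩
    · rw [if_neg h2, if_neg h2]
      exact ⟨by norm_num, by linarith, fun _ => le_rfl, fun h => by norm_num at h, Or.inl rfl,
        le_rfl, by norm_num⟩

theorem stepq : S_STEPQ := by
  intro n L M g W A lam j j' hL hM hW hA hlam0 hlam hj
  obtain ⟨r, hr, -, hr1, hr2, e3, -⟩ := nums hL
  have hL0 : (0 : ℝ) ≤ L := Nat.cast_nonneg _
  have hA2 : 0 ≤ A ^ 2 := sq_nonneg A
  have hy : ∀ c, 0 ≤ W j c * W j' c ∧ W j c * W j' c ≤ A ^ 2 := by
    intro c
    obtain ⟨a1, a2⟩ := hW j c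
    obtain ⟨b1, b2⟩ := hW j' c
    refine ⟨mul_nonneg a1 b1, ?_⟩
    rw [sq]
    exact mul_le_mul a2 b2 b1 (a1.trans a2)
  obtain ⟨D, hD⟩ : ∃ D : Fin L → ℝ, ∀ k, D k =
      ∑ c, (W j c * W j' c) * (ff M k g j c * ff M k g j' c - 1) := ⟨_, fun _ => rfl⟩
  have hcod : ∀ k, cod (upd M k g W) j j' = cod W j j' + D k := by
    intro k
    rw [hD]
    unfold cod
    rw [← Finset.sum_add_distrib]
    refine Finset.sum_congr rfl fun c _ => ?_
    rw [upd_eq, upd_eq]
    ring
  -- the sum of the differences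
  have hsum : ∑ k, D k ≤ 0 := by
    rw [Finset.sum_congr rfl fun k _ => hD k, Finset.sum_comm]
    refine Finset.sum_nonpos fun c _ => ?_
    rw [← Finset.mul_sum, Finset.sum_sub_distrib, Finset.sum_const, Finset.card_univ,
      Fintype.card_fin, nsmul_eq_mul, mul_one]
    have h1 := sum_ff M hM hL g j j' c hj
    exact mul_nonpos_of_nonneg_of_nonpos (hy c).1 (by linarith)
  -- the size of the differences
  have hup : ∀ k, D k ≤ 5 * A ^ 2 := by
    intro k
    have h1 : ∀ c, (W j c * W j' c) * (ff M k g j c * ff M k g j' c - 1) ≤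
        A ^ 2 * ((r - 1) * (ee M g j c + ee M g j' c) + (r - 1) ^ 2 * ee M g j c) := by
      intro c
      obtain ⟨a1, a2, -, -, -, a6, a7⟩ := ff_bd hL M k g j c r hr hr1
      obtain ⟨b1, b2, -, -, -, b6, b7⟩ := ff_bd hL M k g j' c r hr hr1
      have h2 : ff M k g j c * ff M k g j' c ≤
          (1 + (r - 1) * ee M g j c) * (1 + (r - 1) * ee M g j' c) :=
        mul_le_mul a2 b2 b1 (a1.trans a2)
      have hr0 : 0 ≤ r - 1 := by linarith
      have h3 : (r - 1) ^ 2 * (ee M g j c * ee M g j' c) ≤ (r - 1) ^ 2 * ee M g j c := by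
        refine mul_le_mul_of_nonneg_left ?_ (sq_nonneg _)
        exact mul_le_of_le_one_right a6 b7
      have h4 : ff M k g j c * ff M k g j' c - 1 ≤
          (r - 1) * (ee M g j c + ee M g j' c) + (r - 1) ^ 2 * ee M g j c := by
        nlinarith
      have h5 : 0 ≤ (r - 1) * (ee M g j c + ee M g j' c) + (r - 1) ^ 2 * ee M g j c := by
        positivity
      exact (mul_le_mul_of_nonneg_left h4 (hy c).1).trans (mul_le_mul_of_nonneg_right (hy c).2 h5)
    rw [hD]
    refine (Finset.sum_le_sum fun c _ => h1 c).trans ?_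
    rw [← Finset.mul_sum, Finset.sum_add_distrib, ← Finset.mul_sum, ← Finset.mul_sum,
      Finset.sum_add_distrib, mul_comm]
    refine mul_le_mul_of_nonneg_right ?_ hA2
    have s1 := ee_sum M g j
    have s2 := ee_sum M g j'
    have hr0 : 0 ≤ r - 1 := by linarith
    have t1 : (r - 1) * (∑ c, ee M g j c + ∑ c, ee M g j' c) ≤ (r - 1) * (L + L) :=
      mul_le_mul_of_nonneg_left (by linarith) hr0
    have t2 : (r - 1) ^ 2 * ∑ c, ee M g j c ≤ (r - 1) ^ 2 * L :=
      mul_le_mul_of_nonneg_left s1 (sq_nonneg _)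
    have t3 : (r - 1) * ((L : ℝ) + L) = 2 * r := by linarith
    have t4 : (r - 1) ^ 2 * (L : ℝ) = (r - 1) * r := by
      rw [sq, mul_assoc, mul_comm (r - 1) (L : ℝ), e3]
    rw [t3] at t1
    rw [t4] at t2
    nlinarith
  have hlo : ∀ k, -(5 * A ^ 2) ≤ D k := by
    intro k
    have h1 : ∀ c, -(A ^ 2 * (dd M k g j c + dd M k g j' c)) ≤
        (W j c * W j' c) * (ff M k g j c * ff M k g j' c - 1) := by
      intro c
      obtain ⟨a1, -, a3, a4, a5, -, -⟩ := ff_bd hL M k g j c r hr hr1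
      obtain ⟨b1, -, b3, b4, b5, -, -⟩ := ff_bd hL M k g j' c r hr hr1
      obtain ⟨y1, y2⟩ := hy c
      rcases a5 with a5 | a5
      · rcases b5 with b5 | b5
        · rw [a5, b5]
          have h2 : 1 ≤ ff M k g j c * ff M k g j' c := by
            have := mul_le_mul (a3 a5) (b3 b5) zero_le_one a1
            linarith
          have h3 := mul_nonneg y1 (sub_nonneg.2 h2)
          linarith
        · rw [a5, b5, b4 b5]
          linarith
      · rw [a4 a5, a5]
        rcases b5 with b5 | b5 <;> rw [b5] <;> nlinarith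
    rw [hD]
    refine le_trans ?_ (Finset.sum_le_sum fun c _ => h1 c)
    rw [Finset.sum_neg_distrib, ← Finset.mul_sum, Finset.sum_add_distrib, dd_sum, dd_sum]
    linarith
  -- the exponentials
  have hexp : ∀ k, Real.exp (lam * D k) ≤ 1 + lam * D k + 25 * lam ^ 2 * A ^ 4 := by
    intro k
    have h1 : |lam * D k| ≤ lam * (5 * A ^ 2) := by
      rw [abs_mul, abs_of_nonneg hlam0]
      exact mul_le_mul_of_nonneg_left (abs_le.2 ⟨hlo k, hup k⟩) hlam0
    have h2 := Real.abs_exp_sub_one_sub_id_le (h1.trans hlam)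
    have h3 : (lam * D k) ^ 2 ≤ (lam * (5 * A ^ 2)) ^ 2 := by
      rw [← sq_abs (lam * D k)]
      exact pow_le_pow_left₀ (abs_nonneg _) h1 2
    have h4 := (abs_le.1 h2).2
    have h5 : (lam * (5 * A ^ 2)) ^ 2 = 25 * lam ^ 2 * A ^ 4 := by ring
    rw [h5] at h3
    linarith
  have hall : ∑ k, Real.exp (lam * D k) ≤ L * Real.exp (25 * lam ^ 2 * A ^ 4) := by
    refine (Finset.sum_le_sum fun k _ => hexp k).trans ?_
    rw [Finset.sum_add_distrib, Finset.sum_add_distrib, ← Finset.mul_sum, Finset.sum_const,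
      Finset.sum_const, Finset.card_univ, Fintype.card_fin, nsmul_eq_mul, nsmul_eq_mul, mul_one]
    have h1 : lam * ∑ k, D k ≤ 0 := mul_nonpos_of_nonneg_of_nonpos hlam0 hsum
    have h2 := mul_le_mul_of_nonneg_left (Real.add_one_le_exp (25 * lam ^ 2 * A ^ 4)) hL0
    linarith
  have hfin : ∀ k, Real.exp (lam * (cod (upd M k g W) j j' - n)) =
      Real.exp (lam * D k) * Real.exp (lam * (cod W j j' - n)) := by
    intro k
    rw [hcod, ← Real.exp_add]
    congr 1
    ring
  rw [Finset.sum_congr rfl fun k _ => hfin k, ← Finset.sum_mul, ← mul_assoc]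
  exact mul_le_mul_of_nonneg_right hall (Real.exp_pos _).le

end Pool.Agent.H400.AL
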